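import Pool.Agent.MNE.StmtsD

/-!
# MP_d2d93c_nt, row FIN: the counting of the exceptional pairs
-/

set_option autoImplicit false

namespace Pool.Agent.MNE.H15

open Finset Filter Topology Pool.Agent.MNE

lemma inj_pair (τ : Bool) {f g f' g' : ℕ} (hg : g < f) (hg' : g' < f')
    (hA : f ^ 2 - g ^ 2 = f' ^ 2 - g' ^ 2) (hW : Wb τ f g = Wb τ f' g') :
    f = f' ∧ g = g' := by
  obtain ⟨A, hAd⟩ : ∃ A, A = f ^ 2 - g ^ 2 := ⟨_, rfl⟩
  have h1 : f ^ 2 = A + g ^ 2 := by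
    rw [hAd]
    exact (Nat.sub_add_cancel (Nat.pow_le_pow_left hg.le 2)).symm
  have h2 : f' ^ 2 = A + g' ^ 2 := by
    rw [hAd, hA]
    exact (Nat.sub_add_cancel (Nat.pow_le_pow_left hg'.le 2)).symm
  have h3 : f ^ 2 + g ^ 2 = f' ^ 2 + g' ^ 2 := by
    cases τ with
    | true => simpa [Wb] using hW
    | false =>
      have hW' : 2 * f * g = 2 * f' * g' := by simpa [Wb] using hW
      have h4 : (f ^ 2 + g ^ 2) ^ 2 = (f' ^ 2 + g' ^ 2) ^ 2 := by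
        have e1 : (f ^ 2 + g ^ 2) ^ 2 = A ^ 2 + (2 * f * g) ^ 2 := by
          have : (2 * f * g) ^ 2 = 4 * f ^ 2 * g ^ 2 := by ring
          rw [this, h1]
          ring
        have e2 : (f' ^ 2 + g' ^ 2) ^ 2 = A ^ 2 + (2 * f' * g') ^ 2 := by
          have : (2 * f' * g') ^ 2 = 4 * f' ^ 2 * g' ^ 2 := by ring
          rw [this, h2]
          ring
        rw [e1, e2, hW']
      exact Nat.pow_left_injective (by norm_num : (2 : ℕ) ≠ 0) h4
  have h5 : f ^ 2 = f' ^ 2 := by omega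
  have h6 : g ^ 2 = g' ^ 2 := by omega
  exact ⟨Nat.pow_left_injective (by norm_num : (2 : ℕ) ≠ 0) h5,
    Nat.pow_left_injective (by norm_num : (2 : ℕ) ≠ 0) h6⟩

/-- the pairs of class (d) with fixed `τ, w, z` -/
def Cls (θ : ℝ) (N : ℕ) (τ : Bool) (w z : ℕ) : Set (ℕ × ℕ) :=
  {p | p.2 < p.1 ∧ 2 ≤ p.1 ∧ (N : ℝ) ^ θ ≤ p.1 ∧ p.1 ≤ N ∧
    Near p.1 (p.1 ^ 2 - p.2 ^ 2) (Wb τ p.1 p.2) z w}

lemma finite_box (N : ℕ) (s : Set (ℕ × ℕ)) (h : ∀ p ∈ s, p.2 < p.1 ∧ p.1 ≤ N) : s.Finite := by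
  refine Set.Finite.subset ((Finset.range (N + 1) ×ˢ Finset.range (N + 1)).finite_toSet) ?_
  intro p hp
  obtain ⟨h1, h2⟩ := h p hp
  simp only [Finset.coe_product, Finset.coe_range, Set.mem_prod, Set.mem_Iio]
  omega

lemma cls_finite (θ : ℝ) (N : ℕ) (τ : Bool) (w z : ℕ) : (Cls θ N τ w z).Finite :=
  finite_box N _ (fun _ hp => ⟨hp.1, hp.2.2.2.1⟩)

lemma cls_card (θ : ℝ) (N : ℕ) (τ : Bool) (w z : ℕ) (B : ℝ)
    (hfin : {p : ℕ × ℕ | ∃ f : ℕ, 2 ≤ f ∧ (N : ℝ) ^ θ ≤ f ∧ f ≤ N ∧ Near f p.1 p.2 z w}.Finite)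
    (hB : ({p : ℕ × ℕ | ∃ f : ℕ, 2 ≤ f ∧ (N : ℝ) ^ θ ≤ f ∧ f ≤ N ∧
      Near f p.1 p.2 z w}.ncard : ℝ) ≤ B) :
    ((Cls θ N τ w z).ncard : ℝ) ≤ B := by
  refine le_trans ?_ hB
  have := Set.ncard_le_ncard_of_injOn
    (s := Cls θ N τ w z)
    (t := {p : ℕ × ℕ | ∃ f : ℕ, 2 ≤ f ∧ (N : ℝ) ^ θ ≤ f ∧ f ≤ N ∧ Near f p.1 p.2 z w})
    (fun p : ℕ × ℕ => ((p.1 ^ 2 - p.2 ^ 2, Wb τ p.1 p.2) : ℕ × ℕ))
    (fun p hp => ⟨p.1, hp.2.1, hp.2.2.1, hp.2.2.2.1, hp.2.2.2.2⟩)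
    (by
      intro p hp q hq hpq
      have h1 := congrArg Prod.fst hpq
      have h2 := congrArg Prod.snd hpq
      obtain ⟨e1, e2⟩ := inj_pair τ hp.1 hq.1 h1 h2
      exact Prod.ext e1 e2)
    hfin
  exact_mod_cast this

lemma log_pow_le (ε : ℝ) (hε : 0 < ε) (N : ℕ) (hN : 1 ≤ N) :
    Real.log N ^ 24 + 1 ≤ (1 + (192 / ε) ^ 24) * (N : ℝ) ^ (ε / 8) := by
  have hN0 : (1 : ℝ) ≤ N := by exact_mod_cast hN
  have hNn : (0 : ℝ) ≤ N := by linarith
  have hδ : 0 < ε / 192 := by positivity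
  have h1 : Real.log N ≤ (N : ℝ) ^ (ε / 192) / (ε / 192) := Real.log_le_rpow_div hNn hδ
  have h0 : 0 ≤ Real.log N := Real.log_nonneg hN0
  have h2 : Real.log N ^ 24 ≤ ((N : ℝ) ^ (ε / 192) / (ε / 192)) ^ 24 :=
    pow_le_pow_left₀ h0 h1 24
  have h3 : ((N : ℝ) ^ (ε / 192) / (ε / 192)) ^ 24 = (192 / ε) ^ 24 * (N : ℝ) ^ (ε / 8) := by
    rw [div_pow, ← Real.rpow_natCast ((N : ℝ) ^ (ε / 192)) 24, ← Real.rpow_mul hNn]
    have e1 : ε / 192 * ((24 : ℕ) : ℝ) = ε / 8 := by push_cast; ring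
    rw [e1]
    have e2 : (192 / ε : ℝ) ^ 24 = ((ε / 192) ^ 24)⁻¹ := by
      rw [← inv_pow, inv_div]
    rw [e2]
    field_simp
  have h4 : (1 : ℝ) ≤ (N : ℝ) ^ (ε / 8) := Real.one_le_rpow hN0 (by positivity)
  rw [h3] at h2
  nlinarith

theorem fin (hBas : BasStmt) (hClo : CloStmt) (hTwo : TwoStmt) (hCnt : CntStmt)
    (hFix : FixStmt) : FinStmt := by
  intro ε hε
  obtain ⟨θ, hθd⟩ : ∃ θ : ℝ, θ = ε / 4 := ⟨_, rfl⟩
  have hθ : 0 < θ := by rw [hθd]; positivity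
  obtain ⟨m, hmd⟩ : ∃ m : ℕ, m = ⌈32 / ε⌉₊ + 2 := ⟨_, rfl⟩
  have hm2 : 2 ≤ m := by omega
  have hm : (8 / m : ℝ) ≤ ε / 4 := by
    have h1 : 32 / ε ≤ (m : ℝ) := by
      rw [hmd]
      push_cast
      have := Nat.le_ceil (32 / ε)
      linarith
    have hmpos : (0 : ℝ) < m := by positivity
    rw [div_le_iff₀ hmpos]
    rw [div_le_iff₀ hε] at h1
    nlinarith
  obtain ⟨Z0, C0, hC⟩ := hCnt m θ hm2 hθ
  obtain ⟨w0, hw0⟩ := hTwo
  obtain ⟨Z, hZ⟩ : ∃ Z : ℕ, Z = 4 * (Z0 + w0 + 100) := ⟨_, rfl⟩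
  -- the finite part
  obtain ⟨F, hF⟩ : ∃ F : Set (ℕ × ℕ), F = {p : ℕ × ℕ | p.2 < p.1 ∧ p.1 ≤ 10 ^ 11} ∪
    ⋃ x ∈ Finset.range Z, ⋃ y ∈ Finset.range Z, ⋃ z ∈ Finset.range (2 * Z),
      {p : ℕ × ℕ | Sol p.1 p.2 x y z} := ⟨_, rfl⟩
  have hFfin : F.Finite := by
    rw [hF]
    refine Set.Finite.union (finite_box (10 ^ 11) _ (fun p hp => hp)) ?_
    refine Set.Finite.biUnion (Finset.finite_toSet _) (fun x _ => ?_)
    refine Set.Finite.biUnion (Finset.finite_toSet _) (fun y _ => ?_)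
    exact Set.Finite.biUnion (Finset.finite_toSet _) (fun z _ => hFix x y z)
  obtain ⟨K, hK⟩ : ∃ K : ℝ, K = 1 + (192 / ε) ^ 24 := ⟨_, rfl⟩
  have hK0 : 0 ≤ K := by rw [hK]; positivity
  refine ⟨F.ncard + 4 + 6 * K ^ 2 * |C0|, fun N hN => ?_⟩
  have hN0 : (1 : ℝ) ≤ N := by exact_mod_cast hN
  have hNn : (0 : ℝ) ≤ N := by linarith
  have hNp : (0 : ℝ) < N := by linarith
  have hlog : 0 ≤ Real.log N := Real.log_nonneg hN0
  obtain ⟨L, hL⟩ : ∃ L : ℕ, L = ⌊Real.log N ^ 24⌋₊ := ⟨_, rfl⟩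
  have hLle : (L : ℝ) ≤ Real.log N ^ 24 := by
    rw [hL]; exact Nat.floor_le (by positivity)
  obtain ⟨T, hT⟩ : ∃ T : ℕ, T = ⌊(N : ℝ) ^ θ⌋₊ := ⟨_, rfl⟩
  have hTle : (T : ℝ) ≤ (N : ℝ) ^ θ := by
    rw [hT]; exact Nat.floor_le (by positivity)
  classical
  obtain ⟨I, hI⟩ : ∃ I : Finset (Bool × ℕ × ℕ),
    I = ((Finset.univ : Finset Bool) ×ˢ (Finset.range (L + 1) ×ˢ
      Finset.range (3 * L + 1))).filter (fun t => Z0 ≤ t.2.1) := ⟨_, rfl⟩
  obtain ⟨D, hD⟩ : ∃ D : Finset (ℕ × ℕ),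
    D = I.biUnion (fun t => (cls_finite θ N t.1 t.2.1 t.2.2).toFinset) := ⟨_, rfl⟩
  -- the covering
  have hcov : Exc N ⊆ F ∪ ((Finset.range (T + 1) ×ˢ Finset.range (T + 1) : Finset (ℕ × ℕ)) :
      Set (ℕ × ℕ)) ∪ (D : Set (ℕ × ℕ)) := by
    rintro ⟨f, g⟩ ⟨hfN, x, y, z, hsol⟩
    have hfN' : f ≤ N := hfN
    have hsol' : Sol f g x y z := hsol
    have hgf : g < f := by have := hsol'.hd; omega
    have hb := hBas f g x y z hsol'
    by_cases h1 : f ≤ 10 ^ 11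
    · left; left
      rw [hF]
      left
      exact ⟨hgf, h1⟩
    · by_cases h2 : max x y < Z
      · left; left
        rw [hF]
        right
        simp only [Set.mem_iUnion, Finset.mem_range]
        refine ⟨x, lt_of_le_of_lt (le_max_left _ _) h2, y, lt_of_le_of_lt (le_max_right _ _) h2,
          z, ?_, hsol'⟩
        have := hb.2.2.1
        omega
      · by_cases h3 : (f : ℝ) < (N : ℝ) ^ θ
        · left; right
          have hfT : f ≤ T := by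
            rw [hT]
            exact Nat.le_floor h3.le
          simp only [Finset.coe_product, Finset.coe_range, Set.mem_prod, Set.mem_Iio]
          omega
        · right
          have h1' : 10 ^ 11 ≤ f := by omega
          have h2' : 100 ≤ max x y := by omega
          obtain ⟨τ, hnear, hmax⟩ := hClo f g x y z hsol' h1' h2'
          have hw : Z0 + w0 + 100 ≤ wb τ x y := by omega
          have hf2 : 2 ≤ f := by omega
          have hlw := hw0 f _ _ z (wb τ x y) hf2 (by omega) hnear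
          have hfr : (0 : ℝ) < f := by positivity
          have hlogf : Real.log f ≤ Real.log N :=
            Real.log_le_log hfr (by exact_mod_cast hfN')
          have hlogf0 : 0 ≤ Real.log f := Real.log_nonneg (by exact_mod_cast (by omega : 1 ≤ f))
          have hwL : wb τ x y ≤ L := by
            rw [hL]
            apply Nat.le_floor
            exact hlw.trans (pow_le_pow_left₀ hlogf0 hlogf 24)
          have hz3 := hnear.hz
          rw [hD]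
          simp only [Finset.coe_biUnion, Set.mem_iUnion]
          refine ⟨(τ, wb τ x y, z), ?_, ?_⟩
          · rw [hI]
            simp only [Finset.coe_filter, Finset.mem_product, Finset.mem_univ, true_and,
              Finset.mem_range, Set.mem_setOf_eq]
            refine ⟨⟨by omega, by omega⟩, by omega⟩
          · simp only [Set.Finite.coe_toFinset]
            exact ⟨hgf, hf2, not_lt.mp h3, hfN', hnear⟩
  have hfinU : (F ∪ ((Finset.range (T + 1) ×ˢ Finset.range (T + 1) : Finset (ℕ × ℕ)) :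
      Set (ℕ × ℕ)) ∪ (D : Set (ℕ × ℕ))).Finite :=
    (hFfin.union (Finset.finite_toSet _)).union (Finset.finite_toSet _)
  have hcard : (Exc N).ncard ≤ F.ncard + (T + 1) * (T + 1) + D.card := by
    refine (Set.ncard_le_ncard hcov hfinU).trans ?_
    refine (Set.ncard_union_le _ _).trans ?_
    refine Nat.add_le_add ?_ ?_
    · refine (Set.ncard_union_le _ _).trans ?_
      refine Nat.add_le_add le_rfl ?_
      rw [Set.ncard_coe_finset, Finset.card_product, Finset.card_range]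
    · rw [Set.ncard_coe_finset]
  have hPpos : (0 : ℝ) < (N : ℝ) ^ (8 / m : ℝ) := Real.rpow_pos_of_pos hNp _
  have hDcard : (D.card : ℝ) ≤ (2 * ((L + 1) * (3 * L + 1)) : ℝ) * (|C0| * (N : ℝ) ^ (ε / 4)) := by
    have hstep : (D.card : ℝ) ≤ (I.card : ℝ) * (|C0| * (N : ℝ) ^ (ε / 4)) := by
      have h1 : D.card ≤ ∑ t ∈ I, ((cls_finite θ N t.1 t.2.1 t.2.2).toFinset).card := by
        rw [hD]; exact Finset.card_biUnion_le
      have h2 : (D.card : ℝ) ≤ ∑ t ∈ I, (((cls_finite θ N t.1 t.2.1 t.2.2).toFinset).card : ℝ) := by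
        exact_mod_cast h1
      refine h2.trans ?_
      have h3 : ∀ t ∈ I, (((cls_finite θ N t.1 t.2.1 t.2.2).toFinset).card : ℝ) ≤
          |C0| * (N : ℝ) ^ (ε / 4) := by
        intro t ht
        rw [hI, Finset.mem_filter] at ht
        obtain ⟨hfin, hbd⟩ := hC N t.2.1 t.2.2 hN ht.2
        have h4 := cls_card θ N t.1 t.2.1 t.2.2 _ hfin hbd
        rw [Set.ncard_eq_toFinset_card _ (cls_finite θ N t.1 t.2.1 t.2.2)] at h4
        refine h4.trans ?_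
        refine (mul_le_mul_of_nonneg_right (le_abs_self C0) hPpos.le).trans ?_
        refine mul_le_mul_of_nonneg_left ?_ (abs_nonneg _)
        exact Real.rpow_le_rpow_of_exponent_le hN0 hm
      refine (Finset.sum_le_sum h3).trans ?_
      rw [Finset.sum_const, nsmul_eq_mul]
    refine hstep.trans (mul_le_mul_of_nonneg_right ?_ (by positivity))
    have h5 : I.card ≤ 2 * ((L + 1) * (3 * L + 1)) := by
      rw [hI]
      refine (Finset.card_filter_le _ _).trans ?_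
      rw [Finset.card_product, Finset.card_product, Finset.card_range, Finset.card_range]
      simp
    exact_mod_cast h5
  have hlp := log_pow_le ε hε N hN
  rw [← hK] at hlp
  obtain ⟨u, hu⟩ : ∃ u : ℝ, u = (N : ℝ) ^ (ε / 8) := ⟨_, rfl⟩
  have hu1 : 1 ≤ u := by rw [hu]; exact Real.one_le_rpow hN0 (by positivity)
  have hu4 : (N : ℝ) ^ (ε / 4) = u ^ 2 := by
    rw [hu, ← Real.rpow_natCast ((N : ℝ) ^ (ε / 8)) 2, ← Real.rpow_mul hNn]
    congr 1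
    push_cast; ring
  have huε : (N : ℝ) ^ ε = u ^ 8 := by
    rw [hu, ← Real.rpow_natCast ((N : ℝ) ^ (ε / 8)) 8, ← Real.rpow_mul hNn]
    congr 1
    push_cast; ring
  rw [← hu] at hlp
  rw [hu4] at hDcard
  rw [hθd, hu4] at hTle
  rw [huε]
  have hcardR : ((Exc N).ncard : ℝ) ≤ F.ncard + (T + 1) * (T + 1) + D.card := by
    exact_mod_cast hcard
  have hL1 : (L : ℝ) + 1 ≤ K * u := by linarith
  have hL0 : (0 : ℝ) ≤ L := Nat.cast_nonneg L
  have hT0 : (0 : ℝ) ≤ T := Nat.cast_nonneg T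
  have hLL : ((L : ℝ) + 1) * (3 * L + 1) ≤ 3 * (K * u) ^ 2 := by
    have e1 : (3 * (L : ℝ) + 1) ≤ 3 * (K * u) := by linarith
    calc ((L : ℝ) + 1) * (3 * L + 1) ≤ (K * u) * (3 * (K * u)) :=
          mul_le_mul hL1 e1 (by positivity) (by positivity)
      _ = 3 * (K * u) ^ 2 := by ring
  have hC0n := abs_nonneg C0
  have hu2 : 1 ≤ u ^ 2 := one_le_pow₀ hu1
  have hu48 : u ^ 4 ≤ u ^ 8 := pow_le_pow_right₀ hu1 (by norm_num)
  have hu18 : 1 ≤ u ^ 8 := one_le_pow₀ hu1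
  have hTT : ((T : ℝ) + 1) * (T + 1) ≤ 4 * u ^ 4 := by
    have e1 : (T : ℝ) + 1 ≤ 2 * u ^ 2 := by linarith
    calc ((T : ℝ) + 1) * (T + 1) ≤ (2 * u ^ 2) * (2 * u ^ 2) :=
          mul_le_mul e1 e1 (by positivity) (by positivity)
      _ = 4 * u ^ 4 := by ring
  have hDD : (D.card : ℝ) ≤ 6 * K ^ 2 * |C0| * u ^ 4 := by
    refine hDcard.trans ?_
    have : (2 * ((L + 1) * (3 * L + 1)) : ℝ) * (|C0| * u ^ 2) ≤
        (2 * (3 * (K * u) ^ 2)) * (|C0| * u ^ 2) :=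
      mul_le_mul_of_nonneg_right (by linarith) (by positivity)
    refine this.trans (le_of_eq ?_)
    ring
  have hFn : (0 : ℝ) ≤ F.ncard := Nat.cast_nonneg _
  have hKC : 0 ≤ 6 * K ^ 2 * |C0| := by positivity
  calc ((Exc N).ncard : ℝ) ≤ F.ncard + (T + 1) * (T + 1) + D.card := hcardR
    _ ≤ F.ncard * u ^ 8 + 4 * u ^ 8 + 6 * K ^ 2 * |C0| * u ^ 8 := by
        have a1 : (F.ncard : ℝ) ≤ F.ncard * u ^ 8 := le_mul_of_one_le_right hFn hu18
        have a2 : 4 * u ^ 4 ≤ 4 * u ^ 8 := by linarith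
        have a3 : 6 * K ^ 2 * |C0| * u ^ 4 ≤ 6 * K ^ 2 * |C0| * u ^ 8 :=
          mul_le_mul_of_nonneg_left hu48 hKC
        linarith
    _ = (F.ncard + 4 + 6 * K ^ 2 * |C0|) * u ^ 8 := by ring

end Pool.Agent.MNE.H15
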